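import Pool.Agent.Hhelper49.Srd.Deep
import Pool.Agent.Hhelper49.Srd.Stmt

/-!
# Serre's question (FP => FF): counterexamples persist in deep subgroups of finite index

Let `G` be a group of type (FP) which is not of type (FF).  Suppose that
(1) `G` is a linear group over a field of characteristic zero, or
(2) some subgroup of finite index of `G` maps onto `ℤ²`, or
(3) `G` is virtually residually-`l` for two primes `l`.
Then there is a prime `p` such that `G` has subgroups `H` of arbitrarily large finite index which are not of
type (FF), and for which no trivial module `ℤ^m` with `m` prime to `p` has a finite free resolution.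
-/

namespace Pool.Agent.Retired.MP_d19827_al.DeepSubgroups

open Pool.Agent.Hhelper49.Srr

theorem result :
    (∀ (F : Type) [Field F] [CharZero F] (k : ℕ)
      (G : Subgroup (Matrix.GeneralLinearGroup (Fin k) F)), Counterexample G → DeepFailure G) ∧
    (∀ (G : Type) [Group G], Counterexample G → VirtBettiTwo G → DeepFailure G) ∧
    (∀ (G : Type) [Group G] (l₁ l₂ : ℕ), Counterexample G → l₁.Prime → l₂.Prime → l₁ ≠ l₂ →
      VirtResid l₁ G → VirtResid l₂ G → DeepFailure G) :=
  ⟨fun F _ _ k G h => deep_linear F k G h.1 h.2,
    fun G _ h h3 => deep_betti G h.1 h.2 h3,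
    fun G _ l₁ l₂ h h3 h4 h5 h6 h7 => deep G h.1 h.2 l₁ l₂ h3 h4 h5 h6 h7⟩

end Pool.Agent.Retired.MP_d19827_al.DeepSubgroups
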