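import Pool.Agent.VFL.Fi

/-!
# Serre's question (FP) => (FF): counterexamples without finite quotients, and its virtual form

1. Every group `G` of type (FP) which is not of type (FF) embeds in a group `Γ` of type (FP), not of type (FF), such that
* `Γ` has no proper subgroup of finite index, and every finite dimensional linear representation of `Γ` over a field is
  trivial;
* the obstruction has prime or infinite order: there is `p`, prime or `0`, such that the trivial module `ℤ^m` has a
  finite free resolution over `ℤ[Γ]` if and only if `p ∣ m`.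
2. Serre's question is equivalent to its virtual form (every group of type (FP) has a subgroup of finite index of type (FF)),
and to its restriction to groups without proper subgroups of finite index.
-/

namespace Pool.Agent.Results.MP_d19827_al.NoFiniteQuotients

open Pool.Agent.Hhelper49.Srr Pool.Agent.Hhelper49.Srf

theorem result :
    (∀ (G : Type) [Group G], TypeFP G → ¬ TypeFF G →
      ∃ (Γ : Type) (_ : Group Γ) (j : G →* Γ), Function.Injective j ∧ TypeFP Γ ∧ ¬ TypeFF Γ ∧
        (∀ H : Subgroup Γ, H.FiniteIndex → H = ⊤) ∧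
        (∀ (F : Type) [Field F] (n : ℕ) (f : Γ →* Matrix.GeneralLinearGroup (Fin n) F) (g : Γ),
          f g = 1) ∧
        ∃ p : ℕ, (p = 0 ∨ p.Prime) ∧ ∀ m : ℕ, FreeRes m Γ ↔ p ∣ m) ∧
    List.TFAE [∀ (G : Type) [Group G], TypeFP G → TypeFF G,
      ∀ (G : Type) [Group G], TypeFP G → ∃ H : Subgroup G, H.FiniteIndex ∧ TypeFF H,
      ∀ (G : Type) [Group G], TypeFP G → (∀ H : Subgroup G, H.FiniteIndex → H = ⊤) →
        TypeFF G] := by
  constructor
  · intro G _ hFP hFF
    obtain ⟨G', iG', j', h1, h2, p, hp, h3⟩ := prime_order G hFP hFF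
    obtain ⟨Γ, iΓ, j, k1, k2, k3, k4⟩ := embed G' h2
    have h4 : ∀ m : ℕ, FreeRes m Γ ↔ p ∣ m := fun m => (k3 m).trans (h3 m)
    refine ⟨Γ, iΓ, j.comp j', k1.comp h1, k2, ?_, k4, ?_, p, hp, h4⟩
    · intro hcon
      have h5 := (h4 1).1 (freeRes_of_typeFF Γ hcon)
      rw [Nat.dvd_one] at h5
      rcases hp with h6 | h6
      · omega
      · exact h6.one_lt.ne' h5
    · intro F _ n f g
      exact linear_trivial Γ (fg_of_typeFP Γ k2) k4 F n f g
  · tfae_have 1 ↔ 2 := VFL.serre_virtual
    tfae_have 2 → 3 := by
      intro h G _ hG hT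
      obtain ⟨H, hH, hF⟩ := h G hG
      rw [hT H hH] at hF
      exact VFL.typeFF_congr Subgroup.topEquiv hF
    tfae_have 3 → 1 := by
      intro h G _ hG
      obtain ⟨Γ, iΓ, j, k1, k2, k3, k4⟩ := embed G hG
      have h1 := (k3 1).1 (freeRes_of_typeFF Γ (h Γ k2 k4))
      exact (SFP.typeFF_iff G).2 h1
    tfae_finish

end Pool.Agent.Results.MP_d19827_al.NoFiniteQuotients
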